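import Mathlib

set_option autoImplicit false

namespace Pool.Agent.Results.MP_01622d_an.Counter

open Set Polynomial

/-- `ω` is the snake polynomial of degree at most `n` of the majorant `μ` on `[-1, 1]`. -/
def IsSnake (n : ℕ) (μ : ℝ → ℝ) (ω : ℝ[X]) : Prop :=
  ω.natDegree ≤ n ∧ (∀ x ∈ Icc (-1 : ℝ) 1, |ω.eval x| ≤ μ x) ∧
    ∃ τ : Fin (n + 1) → ℝ, StrictAnti τ ∧ (∀ i, τ i ∈ Icc (-1 : ℝ) 1) ∧
      ∀ i, ω.eval (τ i) = (-1) ^ (i : ℕ) * μ (τ i)

noncomputable def w : ℝ[X] := C 18 * X ^ 4 - C 27 * X ^ 2 + C 10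

noncomputable def p : ℝ[X] := w - C (1 / 48) * ((X - C 1) * (C 2 * X - C 1) * (C 64 * X ^ 2 - C 49))

/-- A positive continuous majorant whose snake polynomial is not extremal in the Markov problem. -/
theorem result : ∃ (n k : ℕ) (μ : ℝ → ℝ) (ω q : ℝ[X]), 1 ≤ k ∧ k ≤ n ∧ Continuous μ ∧
    (∀ x, 0 < μ x) ∧ IsSnake n μ ω ∧ q.natDegree ≤ n ∧
    (∀ x ∈ Icc (-1 : ℝ) 1, |q.eval x| ≤ μ x) ∧
    ∃ x ∈ Icc (-1 : ℝ) 1, ∃ M : ℝ, (∀ y ∈ Icc (-1 : ℝ) 1, |(derivative^[k] ω).eval y| ≤ M) ∧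
      M < |(derivative^[k] q).eval x| := by
  have hw : w.natDegree ≤ 4 := by unfold w; compute_degree
  refine ⟨4, 1, fun x => max |w.eval x| |p.eval x|, w, p, le_rfl, by norm_num, by fun_prop, ?_,
    ⟨hw, fun x _ => le_max_left _ _, ![1, 7 / 8, 1 / 2, -7 / 8, -1], ?_, ?_, ?_⟩, ?_,
    fun x _ => le_max_right _ _, -1 / 2, by norm_num, 18, ?_, ?_⟩
  · intro x
    by_contra h
    rw [not_lt, max_le_iff, abs_nonpos_iff, abs_nonpos_iff] at h
    obtain ⟨h1, h2⟩ := h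
    rw [p, eval_sub, h1] at h2
    simp [w, sub_eq_zero] at h1 h2
    rcases h2 with (h2 | h2) | h2
    · rw [h2] at h1; norm_num at h1
    · rw [show x = 1 / 2 by linarith] at h1; norm_num at h1
    · rw [show x ^ 4 = (x ^ 2) ^ 2 by ring, show x ^ 2 = 49 / 64 by linarith] at h1; norm_num at h1
  · refine Fin.strictAnti_iff_succ_lt.2 fun i => ?_
    fin_cases i <;> simp <;> norm_num
  · intro i
    fin_cases i <;> simp <;> norm_num
  · intro i
    fin_cases i <;> simp [p, w] <;> norm_num [abs_of_pos, abs_of_neg]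
  · unfold p w; compute_degree
  · intro y hy
    simp [w]
    rw [abs_le]
    constructor <;> nlinarith [mul_nonneg (sub_nonneg.2 hy.2) (sq_nonneg (2 * y + 1)),
      mul_nonneg (sub_nonneg.2 hy.1) (sq_nonneg (2 * y - 1))]
  · simp [p, w]; norm_num [abs_of_pos]

end Pool.Agent.Results.MP_01622d_an.Counter
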